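import Pool.Agent.H22.Wm2

namespace Pool.Agent.Results.MP_410e25_an.Split

open MeasureTheory Set Complex Filter
open scoped ENNReal

/-- the interval `(-A, A)`, `0 < A ≤ ∞` -/
def dom (A : ℝ≥0∞) : Set ℝ := {l | ENNReal.ofReal |l| < A}

/-- `f ∈ R_A` -/
def InR (A : ℝ≥0∞) (f : ℝ → ℂ) : Prop :=
  ∃ C : ℝ, ∀ s : Finset ℝ, (∀ x ∈ s, x ∈ dom A) → ∀ c : ℝ → ℂ, ∀ M : ℝ,
    (∀ t : ℝ, ‖∑ x ∈ s, c x * exp (I * (x : ℂ) * (t : ℂ))‖ ≤ M) → ‖∑ x ∈ s, c x * f x‖ ≤ C * M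

theorem result (A : ℝ≥0∞) (_hA : 0 < A) (f : ℝ → ℂ) (hR : InR A f)
    (hm : AEMeasurable f (volume.restrict (dom A))) :
    ∃ fc fm : ℝ → ℂ, InR A fc ∧ ContinuousOn fc (dom A) ∧ InR A fm ∧
      AEMeasurable fm (volume.restrict (dom A)) ∧ (∀ᵐ l ∂(volume.restrict (dom A)), fm l = 0) ∧
      ∀ l ∈ dom A, f l = fc l + fm l := by
  obtain ⟨C, hC⟩ := hR
  have hI : IsOpen (dom A) :=
    isOpen_lt (ENNReal.continuous_ofReal.comp continuous_abs) continuous_const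
  obtain ⟨g, gc, h1, -, -, h4, h5, h6⟩ := Pool.Agent.H22.Wm.main hI (le_max_right C 0)
    (fun s hs c M hM => (hC s hs c M hM).trans (mul_le_mul_of_nonneg_right (le_max_left _ _)
      ((norm_nonneg _).trans (hM 0)))) hm
  refine ⟨gc, fun l => f l - gc l, ⟨_, fun s _ c M hM => h5 s (fun _ _ => trivial) c M hM⟩,
    h4.continuousOn, ⟨C + max C 0, fun s hs c M hM => ?_⟩, hm.sub h4.aemeasurable, ?_,
    fun l _ => by ring⟩
  · simp only [mul_sub, Finset.sum_sub_distrib, add_mul]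
    exact (norm_sub_le _ _).trans (add_le_add (hC s hs c M hM) (h5 s (fun _ _ => trivial) c M hM))
  · rw [ae_restrict_iff' hI.measurableSet]
    filter_upwards [h6] with l hl hl'
    rw [← h1 l hl', hl, sub_self]

end Pool.Agent.Results.MP_410e25_an.Split
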